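import Pool.Agent.H50.L.CI.Law

/-! # Gluing independent blocks -/

set_option autoImplicit false

namespace Q198.CI

open Finset MeasureTheory

/-- the law of a random subset of `I` as a measure -/
noncomputable def bm (I : Finset ℕ) (w : Finset ℕ → ℝ) : Measure (Finset ℕ) :=
  ∑ S ∈ I.powerset, ENNReal.ofReal (w S) • Measure.dirac S

lemma bm_apply (I : Finset ℕ) (w : Finset ℕ → ℝ) (A : Set (Finset ℕ)) :
    bm I w A = ∑ S ∈ I.powerset, ENNReal.ofReal (w S) * A.indicator 1 S := by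
  unfold bm
  rw [Measure.finsetSum_apply]
  refine sum_congr rfl fun S _ => ?_
  rw [Measure.smul_apply, Measure.dirac_apply, smul_eq_mul]

lemma bm_superset {I : Finset ℕ} {K : ℕ} {p : ℕ → ℝ} {w : Finset ℕ → ℝ} (h : IsLaw I K p w)
    {T : Finset ℕ} (hT : T ⊆ I) (hTK : T.card ≤ K) :
    bm I w {S | T ⊆ S} = ENNReal.ofReal (∏ n ∈ T, p n) := by
  classical
  rw [bm_apply, ← h.2 T hT hTK, ENNReal.ofReal_sum_of_nonneg]
  · have e : Icc T I = I.powerset.filter (fun S => T ⊆ S) := by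
      ext S
      simp only [mem_Icc, mem_filter, mem_powerset]
      exact and_comm
    rw [e, sum_filter]
    refine sum_congr rfl fun S _ => ?_
    by_cases hS : T ⊆ S
    · rw [if_pos hS, Set.indicator_of_mem (by exact hS)]
      simp
    · rw [if_neg hS, Set.indicator_of_notMem (by exact hS)]
      simp
  · intro S hS
    exact h.1 S (mem_Icc.1 hS).2

lemma bm_prob {I : Finset ℕ} {K : ℕ} {p : ℕ → ℝ} {w : Finset ℕ → ℝ} (h : IsLaw I K p w) :
    IsProbabilityMeasure (bm I w) := by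
  constructor
  have h1 := bm_superset h (T := ∅) (empty_subset _) (by simp)
  have e : {S : Finset ℕ | ∅ ⊆ S} = Set.univ := by
    ext S
    simp
  rw [e] at h1
  rw [h1]
  simp

lemma bm_empty (I : Finset ℕ) (w : Finset ℕ → ℝ) :
    bm I w {S | ∀ n ∈ I, n ∉ S} = ENNReal.ofReal (w ∅) := by
  classical
  rw [bm_apply, sum_eq_single ∅]
  · rw [Set.indicator_of_mem]
    · simp
    · intro n _
      simp
  · intro S hS hne
    rw [Set.indicator_of_notMem, mul_zero]
    intro h2
    apply hne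
    rw [Finset.eq_empty_iff_forall_notMem]
    intro n hn
    exact h2 n (mem_powerset.1 hS hn) hn
  · intro h2
    exact absurd (empty_mem_powerset I) h2

lemma bm_nonempty {I : Finset ℕ} {K : ℕ} {p : ℕ → ℝ} {w : Finset ℕ → ℝ} (h : IsLaw I K p w) :
    bm I w {S | ∀ n ∈ I, n ∉ S}ᶜ = ENNReal.ofReal (1 - w ∅) := by
  have := bm_prob h
  rw [prob_compl_eq_one_sub (MeasurableSet.of_discrete), bm_empty, ENNReal.ofReal_sub _ (h.1 ∅ (empty_subset _)),
    ENNReal.ofReal_one]

/-- gluing independent blocks -/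
theorem glue {B : Type} [DecidableEq B] (b : ℕ → B) (I : B → Finset ℕ)
    (hI : ∀ n β, n ∈ I β ↔ b n = β) (K : B → ℕ) {p : ℕ → ℝ} (hp : ∀ n, 0 ≤ p n)
    (w : B → Finset ℕ → ℝ) (hw : ∀ β, IsLaw (I β) (K β) p (w β)) :
    ∃ (P : Measure (B → Finset ℕ)) (_ : IsProbabilityMeasure P) (E : ℕ → Set (B → Finset ℕ))
      (F : B → Set (B → Finset ℕ)),
      (∀ n, MeasurableSet (E n)) ∧ (∀ β, MeasurableSet (F β)) ∧
      (∀ T : Finset ℕ, (∀ n ∈ T, T.card ≤ K (b n)) →
        P (⋂ n ∈ T, E n) = ENNReal.ofReal (∏ n ∈ T, p n)) ∧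
      (∀ β, ∀ ω ∈ F β, ∀ n ∈ I β, ω ∉ E n) ∧
      (∀ s : Finset B, P (⋂ β ∈ s, (F β)ᶜ) = ∏ β ∈ s, ENNReal.ofReal (1 - w β ∅)) := by
  classical
  have : ∀ β, IsProbabilityMeasure (bm (I β) (w β)) := fun β => bm_prob (hw β)
  refine ⟨Measure.infinitePi (fun β => bm (I β) (w β)), inferInstance, fun n => {ω | n ∈ ω (b n)},
    fun β => {ω | ∀ n ∈ I β, n ∉ ω β}, ?_, ?_, ?_, ?_, ?_⟩
  · intro n
    have h1 : MeasurableSet {S : Finset ℕ | n ∈ S} := MeasurableSet.of_discrete
    have h2 : Measurable (fun ω : B → Finset ℕ => ω (b n)) := measurable_pi_apply (b n)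
    exact h2 h1
  · intro β
    have h1 : MeasurableSet {S : Finset ℕ | ∀ n ∈ I β, n ∉ S} := MeasurableSet.of_discrete
    have h2 : Measurable (fun ω : B → Finset ℕ => ω β) := measurable_pi_apply β
    exact h2 h1
  · intro T hT
    have e : (⋂ n ∈ T, {ω : B → Finset ℕ | n ∈ ω (b n)}) =
        Set.pi (T.image b : Finset B) (fun β => {S : Finset ℕ | T.filter (fun n => b n = β) ⊆ S}) := by
      ext ω
      simp only [Set.mem_iInter, Set.mem_ofPred_eq, Set.mem_pi, coe_image, Set.mem_image, mem_coe]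
      constructor
      · rintro h β ⟨m, hm, rfl⟩ n hn
        rw [mem_filter] at hn
        have := h n hn.1
        rw [hn.2] at this
        exact this
      · intro h n hn
        exact h (b n) ⟨n, hn, rfl⟩ (mem_filter.2 ⟨hn, rfl⟩)
    rw [e, Measure.infinitePi_pi _ (fun β _ => MeasurableSet.of_discrete)]
    have h1 : ∀ β ∈ T.image b, bm (I β) (w β) {S : Finset ℕ | T.filter (fun n => b n = β) ⊆ S} =
        ENNReal.ofReal (∏ n ∈ T.filter (fun n => b n = β), p n) := by
      intro β hβ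
      rw [mem_image] at hβ
      obtain ⟨m, hm, rfl⟩ := hβ
      apply bm_superset (hw (b m))
      · intro n hn
        rw [mem_filter] at hn
        exact (hI n (b m)).2 hn.2
      · exact (card_filter_le _ _).trans (hT m hm)
    rw [prod_congr rfl h1, ← ENNReal.ofReal_prod_of_nonneg (fun β _ => prod_nonneg fun n _ => hp n)]
    congr 1
    exact prod_fiberwise_of_maps_to (fun n hn => mem_image_of_mem b hn) p
  · intro β ω hω n hn hE
    have h1 : b n = β := (hI n β).1 hn
    have h2 : n ∈ ω (b n) := hE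
    rw [h1] at h2
    exact hω n hn h2
  · intro s
    have e : (⋂ β ∈ s, {ω : B → Finset ℕ | ∀ n ∈ I β, n ∉ ω β}ᶜ) =
        Set.pi (s : Set B) (fun β => {S : Finset ℕ | ∀ n ∈ I β, n ∉ S}ᶜ) := by
      ext ω
      simp only [Set.mem_iInter, Set.mem_pi, mem_coe]
      rfl
    rw [e, Measure.infinitePi_pi _ (fun β _ => MeasurableSet.of_discrete)]
    exact prod_congr rfl fun β _ => bm_nonempty (hw β)

end Q198.CI
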