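import Mathlib

/-! # Binomial probabilities near the mode, and Lagrange weights at zero -/

set_option autoImplicit false

namespace Q198.CI

open Finset Polynomial

/-- the binomial probabilities -/
noncomputable def bi (H : ℕ) (p : ℝ) (x : ℕ) : ℝ := (H.choose x : ℝ) * p ^ x * (1 - p) ^ (H - x)

lemma bi_pos {H : ℕ} {p : ℝ} (hp : 0 < p) (hp1 : p < 1) {x : ℕ} (hx : x ≤ H) : 0 < bi H p x := by
  unfold bi
  have h1 : 0 < H.choose x := Nat.choose_pos hx
  have h2 : (0:ℝ) < (H.choose x : ℝ) := by exact_mod_cast h1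
  have h3 : 0 < 1 - p := by linarith
  positivity

lemma bi_nonneg {H : ℕ} {p : ℝ} (hp : 0 ≤ p) (hp1 : p ≤ 1) (x : ℕ) : 0 ≤ bi H p x := by
  unfold bi
  have h3 : 0 ≤ 1 - p := by linarith
  positivity

lemma bi_sum (H : ℕ) (p : ℝ) : ∑ x ∈ range (H + 1), bi H p x = 1 := by
  have h := add_pow p (1 - p) H
  rw [show p + (1 - p) = 1 by ring, one_pow] at h
  rw [h]
  refine sum_congr rfl fun x _ => ?_
  unfold bi
  ring

lemma bi_succ {H : ℕ} {p : ℝ} {x : ℕ} (hx : x < H) :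
    bi H p (x + 1) * ((x + 1) * (1 - p)) = bi H p x * ((H - x) * p) := by
  unfold bi
  have h1 : ((H.choose (x + 1) : ℕ) : ℝ) * (x + 1) = (H.choose x : ℝ) * ((H : ℝ) - x) := by
    have := Nat.choose_succ_right_eq H x
    have h2 : ((H.choose (x + 1) * (x + 1) : ℕ) : ℝ) = ((H.choose x * (H - x) : ℕ) : ℝ) := by
      rw [this]
    push_cast [Nat.cast_sub hx.le] at h2
    exact h2
  have h2 : H - x = (H - (x + 1)) + 1 := by omega
  rw [h2, pow_succ, pow_succ]
  calc (H.choose (x + 1) : ℝ) * (p ^ x * p) * (1 - p) ^ (H - (x + 1)) * ((x + 1) * (1 - p))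
      = ((H.choose (x + 1) : ℝ) * (x + 1)) * (p ^ x * p) * (1 - p) ^ (H - (x + 1)) * (1 - p) := by
        ring
    _ = _ := by rw [h1]; ring

/-- the mode -/
lemma exists_mode {H : ℕ} {p : ℝ} (hp : 0 < p) (hp1 : p < 1) : ∃ x₀ : ℕ, x₀ ≤ H ∧
    (∀ x, x ≤ H → bi H p x ≤ bi H p x₀) ∧ (H : ℝ) * p ≤ x₀ + 1 - p ∧ (x₀ : ℝ) ≤ (H + 1) * p := by
  obtain ⟨x₀, h1, h2⟩ := (range (H + 1)).exists_max_image (bi H p) ⟨0, by simp⟩
  have h1' : x₀ ≤ H := by simpa [Nat.lt_succ_iff] using h1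
  have hmax : ∀ x, x ≤ H → bi H p x ≤ bi H p x₀ := fun x hx => h2 x (by simpa [Nat.lt_succ_iff])
  have hpos := bi_pos hp hp1 h1'
  have hq : 0 < 1 - p := by linarith
  refine ⟨x₀, h1', hmax, ?_, ?_⟩
  · rcases h1'.lt_or_eq with hlt | heq
    · have h3 := bi_succ (p := p) hlt
      have h4 := hmax (x₀ + 1) hlt
      have h5 : bi H p x₀ * ((H - x₀) * p) ≤ bi H p x₀ * ((x₀ + 1) * (1 - p)) := by
        rw [← h3]
        exact mul_le_mul_of_nonneg_right h4 (by positivity)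
      have h6 := le_of_mul_le_mul_left h5 hpos
      nlinarith
    · rw [heq]
      nlinarith [Nat.cast_nonneg (α := ℝ) H]
  · rcases Nat.eq_zero_or_pos x₀ with h0 | h0
    · rw [h0]
      push_cast
      positivity
    · obtain ⟨y, rfl⟩ : ∃ y, x₀ = y + 1 := ⟨x₀ - 1, by omega⟩
      have h3 := bi_succ (p := p) (show y < H by omega)
      have h4 := hmax y (by omega)
      have h5 : bi H p (y + 1) * ((y + 1) * (1 - p)) ≤ bi H p (y + 1) * ((H - y) * p) := by
        rw [h3]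
        refine mul_le_mul_of_nonneg_right h4 ?_
        have : (y : ℝ) ≤ H := by exact_mod_cast (by omega : y ≤ H)
        have : (0:ℝ) ≤ H - y := by linarith
        positivity
      have h6 := le_of_mul_le_mul_left h5 hpos
      push_cast
      nlinarith

lemma one_sub_ge_exp {y : ℝ} (h0 : 0 ≤ y) (h1 : y ≤ 1 / 2) : Real.exp (-(2 * y)) ≤ 1 - y := by
  have hpos : 0 < 1 - y := by linarith
  have h2 : Real.log (1 - y)⁻¹ ≤ (1 - y)⁻¹ - 1 := Real.log_le_sub_one_of_pos (by positivity)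
  have h3 : (1 - y)⁻¹ - 1 ≤ 2 * y := by
    rw [inv_eq_one_div, sub_le_iff_le_add, div_le_iff₀ hpos]
    nlinarith
  rw [Real.log_inv] at h2
  rw [← Real.le_log_iff_exp_le hpos]
  linarith

/-- the probabilities to the right of the mode do not decay fast -/
lemma bi_right {H : ℕ} {p : ℝ} (hp : 0 < p) (hp1 : p ≤ 1 / 2) {x₀ : ℕ}
    (h2 : (x₀ : ℝ) ≤ (H + 1) * p) {U : ℕ} (hU : x₀ + U ≤ H) {y : ℝ}
    (hy : y * (H * p) = 2 * U + 3) (hy0 : 0 ≤ y) (hy1 : y ≤ 1 / 2) {u : ℕ} (hu : u ≤ U) :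
    bi H p x₀ * Real.exp (-(2 * y * u)) ≤ bi H p (x₀ + u) := by
  induction u with
  | zero => simp
  | succ u ih =>
    have ih' := ih (by omega)
    have h3 := bi_succ (H := H) (p := p) (show x₀ + u < H by omega)
    have hq : 0 < 1 - p := by linarith
    have hpos : 0 ≤ bi H p (x₀ + u) := bi_nonneg hp.le (by linarith) _
    have hu' : (u : ℝ) + 1 ≤ U := by exact_mod_cast hu
    have hu0 : (0:ℝ) ≤ u := Nat.cast_nonneg u
    have hx0 : (0:ℝ) ≤ x₀ := Nat.cast_nonneg x₀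
    -- ratio
    have hr : (1 - y) * ((x₀ + u + 1) * (1 - p)) ≤ ((H : ℝ) - (x₀ + u)) * p := by
      have hA : ((x₀ : ℝ) + u + 1) ≤ H * p + p + u + 1 := by nlinarith
      have hB : (H : ℝ) * (1 - p) - p - u ≤ (H : ℝ) - (x₀ + u) := by nlinarith
      have hC : (1 - y) * ((x₀ + u + 1) * (1 - p)) ≤ (1 - y) * ((H * p + p + u + 1) * (1 - p)) := by
        apply mul_le_mul_of_nonneg_left _ (by linarith)
        apply mul_le_mul_of_nonneg_right hA hq.le
      have hD : ((H : ℝ) * (1 - p) - p - u) * p ≤ ((H : ℝ) - (x₀ + u)) * p :=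
        mul_le_mul_of_nonneg_right hB hp.le
      refine hC.trans (le_trans ?_ hD)
      have hE : (1 - y) * (H * p + p + u + 1) ≤ H * p - p - u := by
        have e : (1 - y) * (H * p + p + u + 1) =
            H * p - (2 * U + 3) + (1 - y) * (p + u + 1) := by
          rw [← hy]
          ring
        rw [e]
        have hF : (1 - y) * (p + u + 1) ≤ 1 * (p + u + 1) := by
          apply mul_le_mul_of_nonneg_right _ (by positivity)
          linarith
        nlinarith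
      calc (1 - y) * ((H * p + p + u + 1) * (1 - p))
          = ((1 - y) * (H * p + p + u + 1)) * (1 - p) := by ring
        _ ≤ (H * p - p - u) * (1 - p) := mul_le_mul_of_nonneg_right hE hq.le
        _ ≤ ((H : ℝ) * (1 - p) - p - u) * p := by
            have h9 : 0 ≤ (p + u) * (1 - 2 * p) := mul_nonneg (by positivity) (by linarith)
            nlinarith
    have hden : (0:ℝ) < (x₀ + u + 1) * (1 - p) := by positivity
    have h4 : bi H p (x₀ + u) * (1 - y) ≤ bi H p (x₀ + u + 1) := by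
      refine le_of_mul_le_mul_right ?_ hden
      have h5 : bi H p (x₀ + u + 1) * ((x₀ + u + 1) * (1 - p)) =
          bi H p (x₀ + u) * ((H - (x₀ + u)) * p) := by
        have := h3
        push_cast at this
        exact this
      rw [h5]
      calc bi H p (x₀ + u) * (1 - y) * ((x₀ + u + 1) * (1 - p))
          = bi H p (x₀ + u) * ((1 - y) * ((x₀ + u + 1) * (1 - p))) := by
            ring
        _ ≤ _ := mul_le_mul_of_nonneg_left hr hpos
    calc bi H p x₀ * Real.exp (-(2 * y * ((u + 1 : ℕ) : ℝ)))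
        = (bi H p x₀ * Real.exp (-(2 * y * u))) * Real.exp (-(2 * y)) := by
          have e : -(2 * y * ((u + 1 : ℕ) : ℝ)) = -(2 * y * u) + -(2 * y) := by
            push_cast
            ring
          rw [e, Real.exp_add]
          ring
      _ ≤ bi H p (x₀ + u) * (1 - y) := by
          apply mul_le_mul ih' (one_sub_ge_exp hy0 hy1) (Real.exp_pos _).le hpos
      _ ≤ _ := h4

/-- variance of the binomial distribution -/
lemma bi_var (H : ℕ) (p : ℝ) :
    ∑ x ∈ range (H + 1), bi H p x * ((x : ℝ) - H * p) ^ 2 = H * p * (1 - p) := by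
  have h := congrArg (Polynomial.eval p) (bernsteinPolynomial.variance ℝ H)
  simp only [Polynomial.eval_finsetSum, bernsteinPolynomial, Polynomial.eval_mul,
    Polynomial.eval_pow, Polynomial.eval_sub, Polynomial.eval_natCast, Polynomial.eval_X,
    Polynomial.eval_one, nsmul_eq_mul] at h
  calc ∑ x ∈ range (H + 1), bi H p x * ((x : ℝ) - H * p) ^ 2
      = ∑ x ∈ range (H + 1), ((H : ℝ) * p - x) ^ 2 * ((H.choose x : ℝ) * p ^ x * (1 - p) ^ (H - x)) := by
        refine sum_congr rfl fun x _ => ?_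
        unfold bi
        ring
    _ = _ := h

lemma bi_max_ge {H : ℕ} {p : ℝ} (hp : 0 < p) (hp1 : p ≤ 1) (hμ : 1 ≤ (H : ℝ) * p) {B : ℝ}
    (hB : ∀ x, x ≤ H → bi H p x ≤ B) : 3 / (20 * Real.sqrt (H * p)) ≤ B := by
  set μ : ℝ := H * p with hμd
  have hs : 1 ≤ Real.sqrt μ := by rw [Real.one_le_sqrt]; exact hμ
  have hs0 : 0 < Real.sqrt μ := by linarith
  have hμ0 : 0 < μ := by linarith
  have hsq : Real.sqrt μ ^ 2 = μ := Real.sq_sqrt hμ0.le
  classical
  have h1 := bi_sum H p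
  rw [← sum_filter_add_sum_filter_not (range (H + 1)) (fun x : ℕ => |(x : ℝ) - μ| ≤ 2 * Real.sqrt μ)] at h1
  have h2 : ∑ x ∈ (range (H + 1)).filter (fun x : ℕ => ¬ |(x : ℝ) - μ| ≤ 2 * Real.sqrt μ), bi H p x ≤
      1 / 4 := by
    have h3 : ∑ x ∈ (range (H + 1)).filter (fun x : ℕ => ¬ |(x : ℝ) - μ| ≤ 2 * Real.sqrt μ),
        bi H p x * (4 * μ) ≤ H * p * (1 - p) := by
      rw [← bi_var H p]
      refine le_trans (sum_le_sum fun x hx => ?_) (sum_le_sum_of_subset_of_nonneg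
        (filter_subset _ _) fun x _ _ => mul_nonneg (bi_nonneg hp.le hp1 x) (sq_nonneg _))
      rw [mem_filter] at hx
      apply mul_le_mul_of_nonneg_left _ (bi_nonneg hp.le hp1 x)
      have h4 : 2 * Real.sqrt μ < |(x : ℝ) - μ| := lt_of_not_ge hx.2
      have h5 : (2 * Real.sqrt μ) ^ 2 ≤ |(x : ℝ) - μ| ^ 2 :=
        pow_le_pow_left₀ (by positivity) h4.le 2
      rw [sq_abs] at h5
      nlinarith
    rw [← sum_mul] at h3
    have h6 : H * p * (1 - p) ≤ μ := by rw [hμd]; nlinarith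
    rw [le_div_iff₀ (by norm_num : (0:ℝ) < 4)]
    have h7 := h3.trans h6
    have h8 : (∑ x ∈ (range (H + 1)).filter (fun x : ℕ => ¬ |(x : ℝ) - μ| ≤ 2 * Real.sqrt μ), bi H p x) * 4 * μ
        ≤ 1 * μ := by linarith
    exact le_of_mul_le_mul_right h8 hμ0
  have h9 : 3 / 4 ≤ ∑ x ∈ (range (H + 1)).filter (fun x : ℕ => |(x : ℝ) - μ| ≤ 2 * Real.sqrt μ), bi H p x := by
    linarith
  have h10 : ∑ x ∈ (range (H + 1)).filter (fun x : ℕ => |(x : ℝ) - μ| ≤ 2 * Real.sqrt μ), bi H p x ≤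
      ((range (H + 1)).filter (fun x : ℕ => |(x : ℝ) - μ| ≤ 2 * Real.sqrt μ)).card • B := by
    apply sum_le_card_nsmul
    intro x hx
    rw [mem_filter, mem_range] at hx
    exact hB x (by omega)
  have hB0 : 0 ≤ B := (bi_nonneg hp.le hp1 0).trans (hB 0 (Nat.zero_le _))
  have h11 : (((range (H + 1)).filter (fun x : ℕ => |(x : ℝ) - μ| ≤ 2 * Real.sqrt μ)).card : ℝ) ≤
      5 * Real.sqrt μ := by
    have hsub : (range (H + 1)).filter (fun x : ℕ => |(x : ℝ) - μ| ≤ 2 * Real.sqrt μ) ⊆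
        Finset.Icc ⌈μ - 2 * Real.sqrt μ⌉₊ ⌊μ + 2 * Real.sqrt μ⌋₊ := by
      intro x hx
      rw [mem_filter, abs_le] at hx
      rw [Finset.mem_Icc]
      constructor
      · apply Nat.ceil_le.2
        linarith [hx.2.1]
      · apply Nat.le_floor
        linarith [hx.2.2]
    have hc := card_le_card hsub
    rw [Nat.card_Icc] at hc
    have hf : (⌊μ + 2 * Real.sqrt μ⌋₊ : ℝ) ≤ μ + 2 * Real.sqrt μ := Nat.floor_le (by positivity)
    have hg : μ - 2 * Real.sqrt μ ≤ (⌈μ - 2 * Real.sqrt μ⌉₊ : ℝ) := Nat.le_ceil _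
    have hc' : ((((range (H + 1)).filter (fun x : ℕ => |(x : ℝ) - μ| ≤ 2 * Real.sqrt μ)).card : ℕ) : ℝ) ≤
        ((⌊μ + 2 * Real.sqrt μ⌋₊ + 1 - ⌈μ - 2 * Real.sqrt μ⌉₊ : ℕ) : ℝ) := by exact_mod_cast hc
    refine hc'.trans ?_
    rcases le_total ⌈μ - 2 * Real.sqrt μ⌉₊ (⌊μ + 2 * Real.sqrt μ⌋₊ + 1) with h | h
    · rw [Nat.cast_sub h]
      push_cast
      linarith
    · rw [Nat.sub_eq_zero_of_le h]
      push_cast
      positivity
  rw [nsmul_eq_mul] at h10
  have h12 : 3 / 4 ≤ 5 * Real.sqrt μ * B := h9.trans (h10.trans (mul_le_mul_of_nonneg_right h11 hB0))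
  rw [div_le_iff₀ (by positivity)]
  linarith

end Q198.CI
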