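import Pool.Agent.H50.L.CI.Glue

/-! # The dyadic block model -/

set_option autoImplicit false

namespace Q198.CI

open Finset MeasureTheory

/-- the probabilities of Cramér's model -/
noncomputable def cp (n : ℕ) : ℝ := if 3 ≤ n then 1 / Real.log n else 0

lemma cp_nonneg (n : ℕ) : 0 ≤ cp n := by
  unfold cp
  split_ifs with h
  · have : (1:ℝ) ≤ n := by exact_mod_cast (by omega : 1 ≤ n)
    exact div_nonneg zero_le_one (Real.log_nonneg this)
  · exact le_rfl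

lemma one_lt_log {n : ℕ} (h : 3 ≤ n) : 1 < Real.log n := by
  rw [Real.lt_log_iff_exp_lt (by positivity)]
  have h1 := Real.exp_one_lt_d9
  have h2 : (3:ℝ) ≤ n := by exact_mod_cast h
  linarith

lemma cp_le_one (n : ℕ) : cp n ≤ 1 := by
  unfold cp
  split_ifs with h
  · have := one_lt_log h
    rw [div_le_one (by linarith)]
    linarith
  · exact zero_le_one

/-- the block with index `(i, j)` -/
def blk (h : ℕ → ℕ) (β : ℕ × ℕ) : Finset ℕ :=
  (range (2 ^ (β.1 + 1))).filter (fun n => (Nat.log 2 n, n / 2 ^ h (Nat.log 2 n)) = β)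

lemma mem_blk (h : ℕ → ℕ) (n : ℕ) (β : ℕ × ℕ) :
    n ∈ blk h β ↔ (fun n => (Nat.log 2 n, n / 2 ^ h (Nat.log 2 n))) n = β := by
  unfold blk
  rw [mem_filter, mem_range]
  constructor
  · exact fun h => h.2
  · intro h1
    refine ⟨?_, h1⟩
    have h2 : Nat.log 2 n = β.1 := congrArg Prod.fst h1
    rw [← h2]
    exact Nat.lt_pow_succ_log_self (by norm_num) n

lemma blk_eq {h : ℕ → ℕ} {i j : ℕ} (hh : h i ≤ i) (h1 : 2 ^ (i - h i) ≤ j)
    (h2 : j < 2 ^ (i + 1 - h i)) : blk h (i, j) = Ico (j * 2 ^ h i) ((j + 1) * 2 ^ h i) := by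
  have e1 : 2 ^ (i - h i) * 2 ^ h i = 2 ^ i := by
    rw [← pow_add]
    congr 1
    omega
  have e2 : 2 ^ (i + 1 - h i) * 2 ^ h i = 2 ^ (i + 1) := by
    rw [← pow_add]
    congr 1
    omega
  have hpos : 0 < 2 ^ h i := by positivity
  have hlo : 2 ^ i ≤ j * 2 ^ h i := by
    rw [← e1]
    exact Nat.mul_le_mul_right _ h1
  have hhi : (j + 1) * 2 ^ h i ≤ 2 ^ (i + 1) := by
    rw [← e2]
    exact Nat.mul_le_mul_right _ h2
  ext n
  rw [mem_blk, mem_Ico]
  constructor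
  · intro h3
    have h4 : Nat.log 2 n = i := congrArg Prod.fst h3
    have h5 : n / 2 ^ h (Nat.log 2 n) = j := congrArg Prod.snd h3
    rw [h4] at h5
    constructor
    · rw [← h5]
      exact Nat.div_mul_le_self n _
    · rw [← h5]
      rw [mul_comm]
      exact Nat.lt_mul_div_succ n hpos
  · rintro ⟨h3, h4⟩
    have h5 : Nat.log 2 n = i := by
      apply Nat.log_eq_of_pow_le_of_lt_pow
      · omega
      · omega
    have h6 : n / 2 ^ h i = j := by
      apply Nat.div_eq_of_lt_le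
      · exact h3
      · exact h4
    simp only [h5, h6]

lemma scale_le {i : ℕ} (hi : 6 ≤ i) : 4 ≤ (i : ℝ) * Real.log 2 := by
  have h1 := Real.log_two_gt_d9
  have h2 : (6:ℝ) ≤ i := by exact_mod_cast hi
  nlinarith

lemma cp_le_scale {i n : ℕ} (hi : 6 ≤ i) (hn : Nat.log 2 n = i) :
    cp n ≤ 1 / ((i : ℝ) * Real.log 2) := by
  have h4 := scale_le hi
  unfold cp
  split_ifs with h3
  · apply div_le_div_of_nonneg_left zero_le_one (by linarith)
    have h5 : 2 ^ i ≤ n := by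
      rw [← hn]
      exact Nat.pow_log_le_self 2 (by omega)
    have h6 : ((2:ℝ) ^ i) ≤ n := by exact_mod_cast h5
    rw [← Real.log_pow]
    exact Real.log_le_log (by positivity) h6
  · apply div_nonneg zero_le_one (by linarith)

/-- the lower bound for the probability of an empty block -/
noncomputable def tau (h k : ℕ → ℕ) (i : ℕ) : ℝ :=
  ((Real.exp 20 * Real.sqrt ((2:ℝ) ^ h i * (1 / ((i : ℝ) * Real.log 2)) / k i))⁻¹) ^ k i

theorem dyadic_model (h k κ : ℕ → ℕ) (g : Set ℕ) (hh : ∀ i, h i ≤ i)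
    (hgood : ∀ i ∈ g, Even (k i) ∧ 0 < k i ∧ κ i ≤ k i + 1 ∧ 6 ≤ i ∧
      100 * (k i : ℝ) ≤ (2:ℝ) ^ h i * (1 / ((i : ℝ) * Real.log 2))) :
    ∃ (Ω : Type) (_ : MeasurableSpace Ω) (P : Measure Ω) (_ : IsProbabilityMeasure P)
      (E G : ℕ → Set Ω), (∀ n, MeasurableSet (E n)) ∧ (∀ i, MeasurableSet (G i)) ∧
      (∀ T : Finset ℕ, (∀ n ∈ T, T.card ≤ κ (Nat.log 2 n)) →
        P (⋂ n ∈ T, E n) = ENNReal.ofReal (∏ n ∈ T, cp n)) ∧
      (∀ i, ∀ ω ∈ G i, ∃ j, 2 ^ i ≤ j * 2 ^ h i ∧ (j + 1) * 2 ^ h i ≤ 2 ^ (i + 1) ∧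
        ∀ n, j * 2 ^ h i ≤ n → n < (j + 1) * 2 ^ h i → ω ∉ E n) ∧
      (∀ s : Finset ℕ, (∀ i ∈ s, i ∈ g) →
        P (⋂ i ∈ s, (G i)ᶜ) ≤ ENNReal.ofReal (Real.exp (-∑ i ∈ s, tau h k i * 2 ^ (i - h i)))) := by
  classical
  have hex : ∀ β : ℕ × ℕ, ∃ w : Finset ℕ → ℝ, IsLaw (blk h β) (κ β.1) cp w ∧
      (β.1 ∈ g → β.2 ∈ Ico (2 ^ (β.1 - h β.1)) (2 ^ (β.1 + 1 - h β.1)) → tau h k β.1 ≤ w ∅) := by
    rintro ⟨i, j⟩
    by_cases hc : i ∈ g ∧ j ∈ Ico (2 ^ (i - h i)) (2 ^ (i + 1 - h i))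
    · obtain ⟨hi, hj⟩ := hc
      rw [mem_Ico] at hj
      obtain ⟨g1, g2, g3, g4, g5⟩ := hgood i hi
      have h4 := scale_le g4
      have hp0 : 0 < 1 / ((i : ℝ) * Real.log 2) := by positivity
      have hp4 : 1 / ((i : ℝ) * Real.log 2) ≤ 1 / 4 :=
        div_le_div_of_nonneg_left zero_le_one (by norm_num) h4
      have hcard : (blk h (i, j)).card = 2 ^ h i := by
        rw [blk_eq (hh i) hj.1 hj.2, Nat.card_Ico, add_mul, one_mul, Nat.add_sub_cancel_left]
      obtain ⟨q, q1, q2, q3⟩ := exists_q (H := 2 ^ h i) hp0 hp4 g1 g2 (by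
        push_cast
        exact g5)
      have hl := law_of_q hcard q1 q2
      obtain ⟨w, w1, w2⟩ := thin hl hp0 (p' := cp) (fun n _ => cp_nonneg n) (by
        intro n hn
        have := (mem_blk h n (i, j)).1 hn
        exact cp_le_scale g4 (congrArg Prod.fst this))
      refine ⟨w, ⟨w1.1, fun T hT hTK => w1.2 T hT (hTK.trans g3)⟩, fun _ _ => ?_⟩
      refine le_trans ?_ w2
      unfold tau
      simp only [card_empty, Nat.choose_zero_right, Nat.cast_one, div_one]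
      push_cast at q3
      exact q3
    · exact ⟨_, law_prod _ cp_nonneg cp_le_one _, fun h1 h2 => absurd ⟨h1, h2⟩ hc⟩
  choose w hw1 hw2 using hex
  obtain ⟨P, hP, E, F, hE, hF, hT, hFE, hs⟩ := glue (fun n => (Nat.log 2 n, n / 2 ^ h (Nat.log 2 n)))
    (blk h) (mem_blk h) (fun β => κ β.1) cp_nonneg w hw1
  have hG : ∀ s : Finset ℕ, (⋂ i ∈ s, (⋃ j ∈ Ico (2 ^ (i - h i)) (2 ^ (i + 1 - h i)), F (i, j))ᶜ) =
      ⋂ β ∈ (s.sigma (fun i => Ico (2 ^ (i - h i)) (2 ^ (i + 1 - h i)))).image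
        (fun x : (_ : ℕ) × ℕ => (x.1, x.2)), (F β)ᶜ := by
    intro s
    ext ω
    simp only [Set.mem_iInter, Set.mem_compl_iff, Set.mem_iUnion, not_exists, mem_sigma, mem_image]
    constructor
    · rintro h1 _ ⟨⟨i, j⟩, ⟨h2, h3⟩, rfl⟩
      exact h1 i h2 j h3
    · intro h1 i h2 j h3
      exact h1 (i, j) ⟨⟨i, j⟩, ⟨h2, h3⟩, rfl⟩
  refine ⟨_, inferInstance, P, hP, E,
    fun i => ⋃ j ∈ Ico (2 ^ (i - h i)) (2 ^ (i + 1 - h i)), F (i, j), hE, ?_, ?_, ?_, ?_⟩
  · intro i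
    exact Finset.measurableSet_biUnion _ fun j _ => hF (i, j)
  · intro T hTc
    exact hT T hTc
  · intro i ω hω
    simp only [Set.mem_iUnion] at hω
    obtain ⟨j, hj, hωF⟩ := hω
    rw [mem_Ico] at hj
    have e1 : 2 ^ (i - h i) * 2 ^ h i = 2 ^ i := by
      rw [← pow_add]
      congr 1
      have := hh i
      omega
    have e2 : 2 ^ (i + 1 - h i) * 2 ^ h i = 2 ^ (i + 1) := by
      rw [← pow_add]
      congr 1
      have := hh i
      omega
    refine ⟨j, ?_, ?_, ?_⟩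
    · rw [← e1]
      exact Nat.mul_le_mul_right _ hj.1
    · rw [← e2]
      exact Nat.mul_le_mul_right _ hj.2
    · intro n hn1 hn2
      apply hFE (i, j) ω hωF n
      rw [blk_eq (hh i) hj.1 hj.2, mem_Ico]
      exact ⟨hn1, hn2⟩
  · intro s hsi
    rw [hG s, hs, prod_image]
    · rw [prod_sigma]
      have h1 : ∀ i ∈ s, ∏ j ∈ Ico (2 ^ (i - h i)) (2 ^ (i + 1 - h i)),
          ENNReal.ofReal (1 - w (i, j) ∅) ≤ ENNReal.ofReal (Real.exp (-(tau h k i * 2 ^ (i - h i)))) := by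
        intro i hi
        have h2 : ∏ j ∈ Ico (2 ^ (i - h i)) (2 ^ (i + 1 - h i)), ENNReal.ofReal (1 - w (i, j) ∅) ≤
            ∏ j ∈ Ico (2 ^ (i - h i)) (2 ^ (i + 1 - h i)), ENNReal.ofReal (Real.exp (-tau h k i)) := by
          refine prod_le_prod' fun j hj => ENNReal.ofReal_le_ofReal ?_
          have h3 := hw2 (i, j) (hsi i hi) hj
          have h4 := Real.add_one_le_exp (-tau h k i)
          simp only at h3
          linarith
        refine h2.trans ?_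
        rw [prod_const, Nat.card_Ico]
        have h3 : 2 ^ (i + 1 - h i) - 2 ^ (i - h i) = 2 ^ (i - h i) := by
          have h4 : i + 1 - h i = (i - h i) + 1 := by
            have := hh i
            omega
          rw [h4, pow_succ]
          omega
        rw [h3, ← ENNReal.ofReal_pow (Real.exp_pos _).le, ← Real.exp_nat_mul]
        apply le_of_eq
        congr 2
        push_cast
        ring
      refine (prod_le_prod' h1).trans ?_
      rw [← ENNReal.ofReal_prod_of_nonneg (fun i _ => (Real.exp_pos _).le), ← Real.exp_sum,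
        sum_neg_distrib]
    · rintro ⟨i, j⟩ _ ⟨i', j'⟩ _ heq
      simp only [Prod.mk.injEq] at heq
      obtain ⟨rfl, rfl⟩ := heq
      rfl

end Q198.CI
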