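import Pool.Agent.H50.L.CI.Quad

/-! # Random subsets of a block with prescribed small marginals -/

set_option autoImplicit false

namespace Q198.CI

open Finset

/-- `w` is the law of a random subset of `I` for which the events `n ∈ A` have probability `p n`
and are `K`-wise independent -/
def IsLaw (I : Finset ℕ) (K : ℕ) (p : ℕ → ℝ) (w : Finset ℕ → ℝ) : Prop :=
  (∀ S ⊆ I, 0 ≤ w S) ∧ ∀ T ⊆ I, T.card ≤ K → ∑ S ∈ Icc T I, w S = ∏ n ∈ T, p n

lemma sum_Icc_eq {T I : Finset ℕ} (h : T ⊆ I) (G : Finset ℕ → ℝ) :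
    ∑ S ∈ Icc T I, G S = ∑ R ∈ (I \ T).powerset, G (T ∪ R) := by
  rw [Finset.Icc_eq_image_powerset h, sum_image]
  intro R hR R' hR' hRR
  have hR1 : Disjoint T R := by
    have := mem_powerset.1 (mem_coe.1 hR)
    exact (disjoint_sdiff (s := T) (t := I)).mono_right this
  have hR2 : Disjoint T R' := by
    have := mem_powerset.1 (mem_coe.1 hR')
    exact (disjoint_sdiff (s := T) (t := I)).mono_right this
  have e1 : (T ∪ R) \ T = R := by rw [union_sdiff_left, sdiff_eq_self_of_disjoint hR1.symm]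
  have e2 : (T ∪ R') \ T = R' := by rw [union_sdiff_left, sdiff_eq_self_of_disjoint hR2.symm]
  rw [← e1, ← e2]
  exact congrArg (· \ T) hRR

lemma sum_Icc_card {T I : Finset ℕ} (h : T ⊆ I) (G : ℕ → ℝ) :
    ∑ S ∈ Icc T I, G S.card = ∑ m ∈ range (I.card - T.card + 1),
      ((I.card - T.card).choose m : ℝ) * G (T.card + m) := by
  rw [sum_Icc_eq h]
  have h1 : ∀ R ∈ (I \ T).powerset, G (T ∪ R).card = (fun m => G (T.card + m)) R.card := by
    intro R hR
    have hR1 : Disjoint T R := (disjoint_sdiff (s := T) (t := I)).mono_right (mem_powerset.1 hR)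
    rw [card_union_of_disjoint hR1]
  have h2 := sum_powerset_apply_card (fun m => G (T.card + m)) (x := I \ T)
  rw [sum_congr rfl h1]
  refine h2.trans ?_
  rw [card_sdiff_of_subset h]
  refine sum_congr rfl fun m _ => ?_
  rw [nsmul_eq_mul]

lemma law_of_q {I : Finset ℕ} {H : ℕ} (hI : I.card = H) {q : ℕ → ℝ} (hq : ∀ x, 0 ≤ q x) {K : ℕ}
    {p : ℝ} (hm : ∀ j ≤ K, ∑ x ∈ range (H + 1), q x * (x.choose j : ℝ) = (H.choose j : ℝ) * p ^ j) :
    IsLaw I K (fun _ => p) (fun S => q S.card / (H.choose S.card : ℝ)) := by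
  constructor
  · intro S _
    exact div_nonneg (hq _) (Nat.cast_nonneg _)
  · intro T hT hTK
    have hTH : T.card ≤ H := by
      rw [← hI]
      exact card_le_card hT
    rw [sum_Icc_card hT (fun x => q x / (H.choose x : ℝ)), prod_const, hI]
    set j := T.card with hj
    have hC : (0:ℝ) < (H.choose j : ℝ) := by exact_mod_cast Nat.choose_pos hTH
    have h1 : ∀ m ∈ range (H - j + 1), ((H - j).choose m : ℝ) * (q (j + m) / (H.choose (j + m) : ℝ)) =
        (q (j + m) * ((j + m).choose j : ℝ)) / (H.choose j : ℝ) := by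
      intro m hm'
      rw [mem_range] at hm'
      have h2 : H.choose (j + m) * (j + m).choose j = H.choose j * (H - j).choose m := by
        have := Nat.choose_mul (n := H) (k := j + m) (s := j) (Nat.le_add_right j m)
        rw [this, Nat.add_sub_cancel_left]
      have h3 : ((H.choose (j + m) : ℕ) : ℝ) * ((j + m).choose j : ℝ) =
          (H.choose j : ℝ) * ((H - j).choose m : ℝ) := by
        exact_mod_cast h2
      have h4 : (0:ℝ) < (H.choose (j + m) : ℝ) := by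
        exact_mod_cast Nat.choose_pos (by omega : j + m ≤ H)
      rw [mul_div_assoc', div_eq_div_iff h4.ne' hC.ne']
      calc ((H - j).choose m : ℝ) * q (j + m) * (H.choose j : ℝ)
          = q (j + m) * ((H.choose j : ℝ) * ((H - j).choose m : ℝ)) := by ring
        _ = _ := by rw [← h3]; ring
    rw [sum_congr rfl h1, ← sum_div]
    have h5 : ∑ m ∈ range (H - j + 1), q (j + m) * ((j + m).choose j : ℝ) =
        ∑ x ∈ range (H + 1), q x * (x.choose j : ℝ) := by
      have e : H + 1 = j + (H - j + 1) := by omega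
      rw [e, sum_range_add (n := j)]
      have e2 : ∑ x ∈ range j, q x * (x.choose j : ℝ) = 0 := by
        refine sum_eq_zero fun x hx => ?_
        rw [Nat.choose_eq_zero_of_lt (mem_range.1 hx)]
        simp
      rw [e2, zero_add]
    rw [h5, hm j hTK]
    field_simp

lemma prod_moment {T I : Finset ℕ} (h : T ⊆ I) (r : ℕ → ℝ) :
    ∑ S ∈ Icc T I, (∏ n ∈ S, r n) * ∏ n ∈ I \ S, (1 - r n) = ∏ n ∈ T, r n := by
  rw [sum_Icc_eq h]
  have h1 : ∀ R ∈ (I \ T).powerset, (∏ n ∈ T ∪ R, r n) * ∏ n ∈ I \ (T ∪ R), (1 - r n) =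
      (∏ n ∈ T, r n) * ((∏ n ∈ R, r n) * ∏ n ∈ (I \ T) \ R, (1 - r n)) := by
    intro R hR
    have hR1 : Disjoint T R := (disjoint_sdiff (s := T) (t := I)).mono_right (mem_powerset.1 hR)
    have e : I \ (T ∪ R) = (I \ T) \ R := by
      ext x
      simp only [mem_sdiff, mem_union]
      tauto
    rw [prod_union hR1, e]
    ring
  rw [sum_congr rfl h1, ← mul_sum, ← prod_add]
  simp

lemma law_prod (I : Finset ℕ) {p : ℕ → ℝ} (hp : ∀ n, 0 ≤ p n) (hp1 : ∀ n, p n ≤ 1) (K : ℕ) :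
    IsLaw I K p (fun S => (∏ n ∈ S, p n) * ∏ n ∈ I \ S, (1 - p n)) := by
  constructor
  · intro S _
    exact mul_nonneg (prod_nonneg fun n _ => hp n) (prod_nonneg fun n _ => by linarith [hp1 n])
  · intro T hT _
    exact prod_moment hT p

lemma thin {I : Finset ℕ} {K : ℕ} {p : ℝ} {w : Finset ℕ → ℝ} (hw : IsLaw I K (fun _ => p) w)
    (hp : 0 < p) {p' : ℕ → ℝ} (h0 : ∀ n ∈ I, 0 ≤ p' n) (h1 : ∀ n ∈ I, p' n ≤ p) :
    ∃ w' : Finset ℕ → ℝ, IsLaw I K p' w' ∧ w ∅ ≤ w' ∅ := by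
  set r : ℕ → ℝ := fun n => p' n / p with hr
  have hr0 : ∀ n ∈ I, 0 ≤ r n := fun n hn => div_nonneg (h0 n hn) hp.le
  have hr1 : ∀ n ∈ I, r n ≤ 1 := fun n hn => by
    rw [hr]
    simp only
    rw [div_le_one hp]
    exact h1 n hn
  have hA : ∀ S S' : Finset ℕ, S ⊆ S' → S' ⊆ I → 0 ≤ (∏ n ∈ S, r n) * ∏ n ∈ S' \ S, (1 - r n) := by
    intro S S' hSS hS'
    refine mul_nonneg (prod_nonneg fun n hn => hr0 n (hS' (hSS hn))) (prod_nonneg fun n hn => ?_)
    have := hr1 n (hS' (mem_sdiff.1 hn).1)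
    linarith
  refine ⟨fun S => ∑ S' ∈ Icc S I, w S' * ((∏ n ∈ S, r n) * ∏ n ∈ S' \ S, (1 - r n)), ⟨?_, ?_⟩, ?_⟩
  · intro S _
    refine sum_nonneg fun S' hS' => ?_
    rw [mem_Icc] at hS'
    exact mul_nonneg (hw.1 S' hS'.2) (hA S S' hS'.1 hS'.2)
  · intro T hT hTK
    rw [sum_comm' (t' := Icc T I) (s' := fun S' => Icc T S')]
    · have h2 : ∀ S' ∈ Icc T I, ∑ S ∈ Icc T S', w S' * ((∏ n ∈ S, r n) * ∏ n ∈ S' \ S, (1 - r n)) =
          w S' * ∏ n ∈ T, r n := by
        intro S' hS'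
        rw [mem_Icc] at hS'
        rw [← mul_sum, prod_moment hS'.1 r]
      rw [sum_congr rfl h2, ← sum_mul, hw.2 T hT hTK, ← prod_mul_distrib]
      refine prod_congr rfl fun n _ => ?_
      rw [hr]
      simp only
      field_simp
    · intro S S'
      simp only [mem_Icc]
      constructor
      · rintro ⟨⟨a, b⟩, c, d⟩
        exact ⟨⟨a, c⟩, a.trans c, d⟩
      · rintro ⟨⟨a, c⟩, _, d⟩
        exact ⟨⟨a, c.trans d⟩, c, d⟩
  · have hmem : (∅ : Finset ℕ) ∈ Icc (∅ : Finset ℕ) I := by simp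
    refine le_trans ?_ (single_le_sum (f := fun S' => w S' * ((∏ n ∈ (∅ : Finset ℕ), r n) *
      ∏ n ∈ S' \ ∅, (1 - r n))) (fun S' hS' => ?_) hmem)
    · simp
    · rw [mem_Icc] at hS'
      exact mul_nonneg (hw.1 S' hS'.2) (hA ∅ S' hS'.1 hS'.2)

end Q198.CI
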